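import Mathlib

set_option autoImplicit false

open Set Filter Topology Function
open Cardinal hiding univ

namespace Pool.Agent.Results.MP_32ee98_gt.NoLinear

/-- the well order `ω₁` -/
abbrev Ω := (ℵ₁ : Cardinal.{0}).ord.ToType

/-- the stick principle -/
def Stick : Prop := ∃ 𝒮 : Set (Set Ω), #𝒮 ≤ ℵ₁ ∧ (∀ A ∈ 𝒮, A.Infinite) ∧
  ∀ S : Set Ω, ¬ S.Countable → ∃ A ∈ 𝒮, A ⊆ S

/-- `cov(M) > ℵ₁` -/
def CovM : Prop := ∀ 𝒟 : Set (Set (ℕ → Bool)), #𝒟 ≤ ℵ₁ → (∀ D ∈ 𝒟, IsOpen D ∧ Dense D) →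
  (⋂₀ 𝒟).Nonempty

/-- weight at most `ℵ₁` -/
def SmallWeight (X : Type) [TopologicalSpace X] : Prop :=
  ∃ B : Set (Set X), TopologicalSpace.IsTopologicalBasis B ∧ #B ≤ ℵ₁

/-- the topology of pointwise convergence -/
@[reducible] def pw (X : Type) [TopologicalSpace X] : TopologicalSpace C(X, ℝ) :=
  TopologicalSpace.induced (fun f x => f x) Pi.topologicalSpace

/-- `C_p(X)` embeds linearly in `C_p(W)` -/
def LinEmb (X W : Type) [TopologicalSpace X] [TopologicalSpace W] : Prop :=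
  ∃ T : C(X, ℝ) →ₗ[ℝ] C(W, ℝ), @IsEmbedding _ _ (pw X) (pw W) T

theorem aleph0_le_aleph_one : (ℵ₀ : Cardinal.{0}) ≤ ℵ₁ := aleph0_le_aleph 1

theorem mk_finset_le_mk_list (α : Type) : #(Finset α) ≤ #(List α) := by
  classical
  exact mk_le_of_surjective List.toFinset_surjective

theorem nb {I : Type} {x : I → Bool} {U : Set (I → Bool)} (hU : U ∈ 𝓝 x) :
    ∃ J : Finset I, ∀ y, (∀ i ∈ J, y i = x i) → y ∈ U := by
  rw [nhds_pi, Filter.mem_pi] at hU
  obtain ⟨F, hF, t, ht, hs⟩ := hU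
  exact ⟨hF.toFinset, fun y hy => hs fun i hi => by
    rw [hy i (hF.mem_toFinset.2 hi)]; exact mem_of_mem_nhds (ht i)⟩

theorem greedy {e : Ω → Ω → ℕ} (he : ∀ b, InjOn (e b) (Iio b)) (J : Finset ℕ) (N : ℕ) :
    ∀ P : Finset Ω, N * (J.card + 1) ≤ P.card →
      ∃ F ⊆ P, F.card = N ∧ ∀ a ∈ F, ∀ b ∈ F, a < b → e b a ∉ J := by
  classical
  induction N with
  | zero => exact fun P _ => ⟨∅, by simp, rfl, by simp⟩
  | succ N ih =>
    intro P hP
    have hne : P.Nonempty := Finset.card_pos.1 (by nlinarith)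
    let b := P.max' hne
    have h1 : ((P.erase b).filter fun a => e b a ∈ J).card ≤ J.card :=
      Finset.card_le_card_of_injOn (e b) (fun a ha => (Finset.mem_filter.1 ha).2)
        ((he b).mono fun a ha => P.lt_max'_of_mem_erase_max' hne (Finset.mem_filter.1 ha).1)
    have h2 := Finset.card_filter_add_card_filter_not (s := P.erase b) fun a => e b a ∈ J
    have h3 := Finset.card_erase_add_one (P.max'_mem hne)
    obtain ⟨F, f1, f2, f3⟩ := ih ((P.erase b).filter fun a => e b a ∉ J) (by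
      simp only [b] at *; nlinarith)
    have hb : b ∉ F := fun h => by simpa using f1 h
    refine ⟨insert b F, Finset.insert_subset (P.max'_mem hne)
      (f1.trans ((Finset.filter_subset _ _).trans (Finset.erase_subset _ _))),
      by rw [Finset.card_insert_of_notMem hb, f2], fun a ha c hc hac => ?_⟩
    rcases Finset.mem_insert.1 hc with rfl | hc
    · exact (Finset.mem_filter.1 (f1 ((Finset.mem_insert.1 ha).resolve_left hac.ne))).2
    · rcases Finset.mem_insert.1 ha with rfl | ha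
      · exact absurd (P.le_max' c (Finset.mem_of_mem_erase (Finset.mem_filter.1 (f1 hc)).1)) hac.not_ge
      · exact f3 a ha c hc hac

theorem codes {W : Type} [TopologicalSpace W] [CompactSpace W] (h : SmallWeight W) :
    ∃ (C : Type) (val : C → W → ℝ), #C ≤ ℵ₁ ∧
      ∀ (g : C(W, ℝ)) (ε : ℝ), 0 < ε → ∃ c, ∀ w, |val c w - g w| ≤ ε := by
  classical
  obtain ⟨B, hB, hc⟩ := h
  refine ⟨Finset (B × ℚ), fun c w => if h : ∃ p ∈ c, w ∈ p.1.1 then (h.choose.2 : ℝ) else 0, ?_,
    fun g ε hε => ?_⟩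
  · refine (mk_finset_le_mk_list _).trans ((mk_list_le_max _).trans (max_le aleph0_le_aleph_one ?_))
    simp only [mk_prod, lift_id, mk_denumerable]
    exact (mul_le_mul' hc aleph0_le_aleph_one).trans (mul_eq_self aleph0_le_aleph_one).le
  have : ∀ w, ∃ p : B × ℚ, w ∈ p.1.1 ∧ ∀ v ∈ p.1.1, |(p.2 : ℝ) - g v| ≤ ε := fun w => by
    obtain ⟨q, hq⟩ := exists_rat_near (g w) hε
    obtain ⟨U, u1, u2, u3⟩ := hB.exists_subset_of_mem_open (a := w) (u := {v | |g v - q| < ε}) hq
      (isOpen_lt (by fun_prop) continuous_const)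
    exact ⟨(⟨U, u1⟩, q), u2, fun v hv => by rw [abs_sub_comm]; exact le_of_lt (u3 hv)⟩
  choose p p1 p2 using this
  obtain ⟨t, ht⟩ := CompactSpace.elim_nhds_subcover (fun w => (p w).1.1)
    fun w => (hB.isOpen (p w).1.2).mem_nhds (p1 w)
  refine ⟨t.image p, fun w => ?_⟩
  have h : ∃ q ∈ t.image p, w ∈ q.1.1 := by
    obtain ⟨v, hv, h⟩ := mem_iUnion₂.1 (ht.symm ▸ mem_univ w : w ∈ ⋃ x ∈ t, (p x).1.1)
    exact ⟨_, Finset.mem_image_of_mem p hv, h⟩
  simp only [dif_pos h]
  obtain ⟨v, -, hv⟩ := Finset.mem_image.1 h.choose_spec.1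
  have := h.choose_spec.2
  rw [← hv] at this ⊢
  exact p2 v w this

theorem bounds {X W : Type} [TopologicalSpace X] [CompactSpace X] [T2Space X] [Nonempty X]
    [TopologicalSpace W] [CompactSpace W] (h : LinEmb X W) :
    ∃ (T : C(X, ℝ) →L[ℝ] C(W, ℝ)) (n : ℕ) (U : Set X), IsOpen U ∧ U.Nonempty ∧
      ∀ x ∈ U, ∀ f : C(X, ℝ), |f x| ≤ n * ‖T f‖ := by
  obtain ⟨T, hT⟩ := h
  have c1 : ∀ w, Continuous fun f : C(X, ℝ) => T f w := fun w => by
    have a : @Continuous _ _ (pw X) _ fun f : C(X, ℝ) => T f w :=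
      @Continuous.comp _ _ _ (pw X) (pw W) _ _ _
        (@Continuous.comp _ _ _ (pw W) _ _ _ _ (continuous_apply w) continuous_induced_dom)
        (@IsEmbedding.continuous _ _ _ (pw X) (pw W) hT)
    exact continuous_le_dom (continuous_iff_le_induced.1
      (continuous_pi fun x => ContinuousEvalConst.continuous_eval_const x)) a
  have c2 : Continuous T := T.continuous_of_seq_closed_graph fun u x y hx hy =>
    ContinuousMap.ext fun w => tendsto_nhds_unique
      (((ContinuousEvalConst.continuous_eval_const w).tendsto y).comp hy) (((c1 w).tendsto x).comp hx)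
  have cov : ∀ x, ∃ n : ℕ, ∀ f : C(X, ℝ), |f x| ≤ n * ‖T f‖ := fun x => by
    by_contra hn
    push Not at hn
    choose f hf using hn
    have h0 : ∀ n, f n x ≠ 0 := fun n e => by
      have := hf n; rw [e, abs_zero] at this; exact this.not_ge (by positivity)
    have t1 : Tendsto (fun n => T ((f (n + 1) x)⁻¹ • f (n + 1))) atTop (𝓝 0) :=
      squeeze_zero_norm (fun n => by
        rw [map_smul, norm_smul, norm_inv, Real.norm_eq_abs, inv_mul_le_iff₀ (abs_pos.2 (h0 _)),
          mul_one_div, le_div_iff₀ (by positivity)]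
        have := hf (n + 1); push_cast at this; linarith) tendsto_one_div_add_atTop_nhds_zero_nat
    have t2 : Tendsto (fun n => (f (n + 1) x)⁻¹ • f (n + 1)) atTop (@nhds _ (pw X) 0) := by
      rw [@IsInducing.tendsto_nhds_iff _ _ _ _ (pw X) (pw W) _ _ _ (@IsEmbedding.isInducing _ _ _ (pw X) (pw W) hT),
        nhds_induced, tendsto_comap_iff, tendsto_pi_nhds, map_zero]
      exact fun w => ((ContinuousEvalConst.continuous_eval_const w).tendsto 0).comp t1
    rw [nhds_induced, tendsto_comap_iff, tendsto_pi_nhds] at t2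
    have t3 := t2 x
    simp [h0] at t3
  obtain ⟨n, hn⟩ := nonempty_interior_of_iUnion_of_closed
    (f := fun n : ℕ => {x | ∀ f : C(X, ℝ), |f x| ≤ n * ‖T f‖})
    (fun n => by
      rw [setOf_forall]
      exact isClosed_iInter fun f => isClosed_le (by fun_prop) continuous_const)
    (eq_univ_of_forall fun x => mem_iUnion.2 (cov x))
  exact ⟨⟨T, c2⟩, n, _, isOpen_interior, hn, fun x hx => interior_subset hx⟩

theorem result (hS : Stick) (hM : CovM) (W : Type) [TopologicalSpace W] [CompactSpace W]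
    (hW : SmallWeight W) : ∃ (X : Type) (_ : TopologicalSpace X), CompactSpace X ∧ T2Space X ∧
      SmallWeight X ∧ ¬ LinEmb X W := by
  classical
  obtain ⟨𝒮, s1, s2, s3⟩ := hS
  obtain ⟨C, val, hC, hval⟩ := codes hW
  have hΩ : #Ω = ℵ₁ := mk_ord_toType _
  have mm := mul_eq_self (aleph0_le_aleph_one)
  obtain ⟨ι⟩ : Nonempty (Ω × C ↪ Ω) := (Cardinal.le_def _ _).1 (by
    simp only [mk_prod, lift_id, hΩ]; exact (mul_le_mul' le_rfl hC).trans mm.le)
  choose e he using fun b : Ω => countable_iff_exists_injOn.1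
    ((countable_iff_lt_aleph_one (Iio b)).2 (mk_Iio_toType_ord_lt b))
  let cA : Set Ω → Ω → W → ℝ := fun A a => if h : ∃ c, ι (a, c) ∈ A then val h.choose else 0
  let D : 𝒮 × ℕ × ℚ → Set (ℕ → Bool) := fun p => {r | {a | ∃ c, ι (a, c) ∈ p.1.1}.Infinite →
    ∃ F : Finset Ω, (∀ a ∈ F, ∃ c, ι (a, c) ∈ p.1.1) ∧ F.card = p.2.1 ∧
      ∀ a ∈ F, ∀ b ∈ F, a < b → r (e b a) = decide (∀ w, |∑ a ∈ F, cA p.1.1 a w| ≤ p.2.2)}
  obtain ⟨r, hr⟩ := hM (range D) (mk_range_le.trans (by
    simp only [mk_prod, lift_id, mk_denumerable]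
    exact (mul_le_mul' s1 aleph0_le_aleph_one).trans mm.le)) (by
    rintro _ ⟨p, rfl⟩
    by_cases h : {a | ∃ c, ι (a, c) ∈ p.1.1}.Infinite
    · refine ⟨isOpen_iff_mem_nhds.2 fun r hr => ?_, dense_iff_inter_open.2 fun U hU ⟨r, hr⟩ => ?_⟩
      · obtain ⟨F, f1, f2, f3⟩ := hr h
        have : ∀ᶠ s in 𝓝 r, ∀ a ∈ F, ∀ b ∈ F, s (e b a) = r (e b a) :=
          (eventually_all_finset F).2 fun a _ => (eventually_all_finset F).2 fun b _ =>
            ((isOpen_discrete ({r (e b a)} : Set Bool)).preimage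
              (show Continuous fun s : ℕ → Bool => s (e b a) from continuous_apply _)).mem_nhds rfl
        filter_upwards [this] with s hs _
        exact ⟨F, f1, f2, fun a ha b hb hab => (hs a ha b hb).trans (f3 a ha b hb hab)⟩
      · obtain ⟨J, hJ⟩ := nb (hU.mem_nhds hr)
        obtain ⟨P, p1, p2⟩ := h.exists_subset_card_eq (p.2.1 * (J.card + 1))
        obtain ⟨F, f1, f2, f3⟩ := greedy he J _ P p2.ge
        exact ⟨fun i => if i ∈ J then r i else decide (∀ w, |∑ a ∈ F, cA p.1.1 a w| ≤ p.2.2),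
          hJ _ fun i hi => if_pos hi, fun _ => ⟨F, fun a ha => p1 (f1 ha), f2,
            fun a ha b hb hab => if_neg (f3 a ha b hb hab)⟩⟩
    · have : D p = univ := eq_univ_of_forall fun r hr => (h hr).elim
      rw [this]; exact ⟨isOpen_univ, dense_univ⟩)
  let K : Set (ℕ × Ω → Bool) := ⋂ j, ⋂ a, ⋂ b, ⋂ (_ : a < b ∧ r (e b a) = false),
    ({x | x (j, a) = false} ∪ {x | x (j, b) = false})
  have hK : IsClosed K := isClosed_iInter fun j => isClosed_iInter fun a => isClosed_iInter fun b =>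
    isClosed_iInter fun _ => (isClosed_eq (continuous_apply _) continuous_const).union
      (isClosed_eq (continuous_apply _) continuous_const)
  have mK : ∀ x, x ∈ K ↔ ∀ j a b, a < b → r (e b a) = false → x (j, a) = false ∨ x (j, b) = false :=
    fun x => by simp only [K, mem_iInter, and_imp]; rfl
  have : CompactSpace K := isCompact_iff_compactSpace.1 hK.isCompact
  have : Nonempty K := ⟨⟨fun _ => false, (mK _).2 fun _ _ _ _ _ => Or.inl rfl⟩⟩
  have nK : ∀ (x : K) (U : Set K), U ∈ 𝓝 x → ∃ J : Finset (ℕ × Ω), ∀ y : K,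
      (∀ i ∈ J, y.1 i = x.1 i) → y ∈ U := fun x U hU => by
    obtain ⟨V, v1, v2⟩ := mem_nhds_subtype _ _ _ |>.1 hU
    obtain ⟨J, hJ⟩ := nb v1
    exact ⟨J, fun y hy => v2 (hJ _ hy)⟩
  refine ⟨K, inferInstance, inferInstance, inferInstance, ?_, fun h => ?_⟩
  · refine ⟨range fun l : Finset ((ℕ × Ω) × Bool) => {y : K | ∀ p ∈ l, y.1 p.1 = p.2},
      TopologicalSpace.isTopologicalBasis_of_isOpen_of_nhds ?_ fun x U hx hU => ?_,
      mk_range_le.trans ?_⟩
    · rintro _ ⟨l, rfl⟩
      simp only [setOf_forall]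
      exact isOpen_biInter_finset fun p _ => (isOpen_discrete ({p.2} : Set Bool)).preimage
        (show Continuous fun y : K => y.1 p.1 from
          (continuous_apply p.1).comp continuous_subtype_val)
    · obtain ⟨J, hJ⟩ := nK x U (hU.mem_nhds hx)
      exact ⟨_, ⟨J.image fun i => (i, x.1 i), rfl⟩,
        fun p hp => by obtain ⟨i, -, rfl⟩ := Finset.mem_image.1 hp; rfl, fun y hy => hJ y fun i hi =>
        hy _ (Finset.mem_image_of_mem _ hi)⟩
    · refine (mk_finset_le_mk_list _).trans ((mk_list_le_max _).trans (max_le aleph0_le_aleph_one ?_))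
      simp only [mk_prod, lift_id, hΩ, mk_nat]
      exact (mul_le_mul' ((mul_le_mul' aleph0_le_aleph_one le_rfl).trans mm.le)
        (mk_le_aleph0.trans aleph0_le_aleph_one)).trans mm.le
  obtain ⟨T, n, U, hU, ⟨x, hx⟩, hn⟩ := bounds h
  obtain ⟨J, hJ⟩ := nK x U (hU.mem_nhds hx)
  obtain ⟨j, hj⟩ := Infinite.exists_notMem_finset (J.image Prod.fst)
  let f : Ω → C(K, ℝ) := fun a => ⟨fun y => if y.1 (j, a) then 1 else 0,
    (continuous_of_discreteTopology (f := fun b : Bool => if b then (1 : ℝ) else 0)).comp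
      ((continuous_apply _).comp continuous_subtype_val)⟩
  choose c hc using fun a => hval (T (f a)) (1 / (4 * (n + 1))) (by positivity)
  obtain ⟨A, a1, a2⟩ := s3 (range fun a => ι (a, c a)) fun h => by
    have := (countable_iff_lt_aleph_one _).1 h
    rw [mk_range_eq _ fun a b e => congrArg Prod.fst (ι.injective e), hΩ] at this
    exact lt_irrefl _ this
  obtain ⟨k, hk⟩ := exists_nat_gt ‖T‖
  obtain ⟨F, f1, f2, f3⟩ := hr _ ⟨(⟨A, a1⟩, 4 * (n + 1) * k, 2 * k), rfl⟩ fun h => s2 A a1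
    ((h.image fun a => ι (a, c a)).subset fun z hz => by
      obtain ⟨a, rfl⟩ := a2 hz; exact ⟨a, ⟨_, hz⟩, rfl⟩)
  have ap : ∀ w, |∑ a ∈ F, cA A a w - T (∑ a ∈ F, f a) w| ≤ k := fun w => by
    rw [map_sum, ContinuousMap.sum_apply, ← Finset.sum_sub_distrib]
    refine (Finset.abs_sum_le_sum_abs _ _).trans ((Finset.sum_le_card_nsmul _ _ (1 / (4 * ((n : ℝ) + 1)))
      fun a ha => ?_).trans_eq ?_)
    · obtain ⟨b, hb⟩ := a2 (f1 a ha).choose_spec
      have e1 := ι.injective hb
      have e2 : b = a := congrArg Prod.fst e1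
      have e3 : c a = (f1 a ha).choose := e2 ▸ congrArg Prod.snd e1
      simp only [cA, dif_pos (f1 a ha), ← e3]
      exact hc a w
    · rw [f2, nsmul_eq_mul]; push_cast; field_simp
  have k0 : (0 : ℝ) < k := (ContinuousLinearMap.opNorm_nonneg T).trans_lt hk
  by_cases hl : ∀ w, |∑ a ∈ F, cA A a w| ≤ ((2 * k : ℚ) : ℝ)
  · let y : K := ⟨fun i => if i.1 = j then decide (i.2 ∈ F) else x.1 i, (mK _).2 fun i a b hab h => by
      by_cases e : i = j
      · by_contra hh
        simp only [e, if_true, decide_eq_false_iff_not, not_or, not_not] at hh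
        rw [f3 a hh.1 b hh.2 hab, decide_eq_true hl] at h
        cases h
      · simp only [if_neg e]; exact (mK _).1 x.2 i a b hab h⟩
    have h1 := hn y (hJ y fun i hi => if_neg fun e : i.1 = j =>
      hj (Finset.mem_image.2 ⟨i, hi, e⟩))
      (∑ a ∈ F, f a)
    have h2 : (∑ a ∈ F, f a) y = F.card := by
      rw [ContinuousMap.sum_apply, Finset.sum_congr rfl (g := fun _ => (1 : ℝ)) fun a ha => by
        simp [f, y, ha]]; simp
    have h3 : ‖T (∑ a ∈ F, f a)‖ ≤ 3 * k := (ContinuousMap.norm_le _ (by positivity)).2 fun w => by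
      have a := abs_le.1 (ap w); have b := abs_le.1 (hl w); push_cast at b
      exact abs_le.2 ⟨by linarith, by linarith⟩
    rw [h2, f2, Nat.abs_cast] at h1
    push_cast at h1
    nlinarith [mul_le_mul_of_nonneg_left h3 (Nat.cast_nonneg (α := ℝ) n), Nat.cast_nonneg (α := ℝ) n]
  · refine hl fun w => ?_
    have h1 : ‖∑ a ∈ F, f a‖ ≤ 1 := (ContinuousMap.norm_le _ zero_le_one).2 fun y => by
      have : (F.filter fun a => y.1 (j, a) = true).card ≤ 1 := Finset.card_le_one.2 fun a ha b hb => by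
        obtain ⟨a1, a2⟩ := Finset.mem_filter.1 ha
        obtain ⟨b1, b2⟩ := Finset.mem_filter.1 hb
        by_contra hab
        rcases lt_or_gt_of_ne hab with h | h
        · rcases (mK _).1 y.2 j a b h ((f3 a a1 b b1 h).trans (decide_eq_false hl)) with e | e
          · rw [a2] at e; cases e
          · rw [b2] at e; cases e
        · rcases (mK _).1 y.2 j b a h ((f3 b b1 a a1 h).trans (decide_eq_false hl)) with e | e
          · rw [b2] at e; cases e
          · rw [a2] at e; cases e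
      rw [ContinuousMap.sum_apply]
      simp only [f, ContinuousMap.coe_mk, Finset.sum_boole, Real.norm_natCast]
      exact_mod_cast this
    have h2 := abs_le.1 ((ContinuousMap.norm_coe_le_norm (T (∑ a ∈ F, f a)) w).trans
      (T.le_opNorm_of_le h1))
    have a := abs_le.1 (ap w)
    push_cast
    exact abs_le.2 ⟨by linarith, by linarith⟩

end Pool.Agent.Results.MP_32ee98_gt.NoLinear
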